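import Pool.Agent.Helper5.GB.St

/-! # Project GB (MP_b39980_an), module Tip: the frontier near the point `(-1,0)` -/

set_option autoImplicit false

open Set Filter Topology
open Helper85.HN (hen Orb Bd KK E0)

namespace Pool.Agent.Helper1.GB

open Pool.Agent.Helper5.GB

/-- module Tip -/
theorem hTip (h1 : StHof) : StTip := by
  obtain ⟨a, d, ha, hd, h1⟩ := h1
  intro τ
  obtain ⟨K, hK⟩ : ∃ K : ℝ, K = |τ| * (6 / (8 * a ^ 3)) + 1 := ⟨_, rfl⟩
  have hc : 0 ≤ |τ| * (6 / (8 * a ^ 3)) := by positivity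
  have hK1 : 0 < K := by rw [hK]; linarith
  refine ⟨min d (1 / K ^ 2), lt_min hd (by positivity), ?_⟩
  intro q hq hdist hne
  have hd1 : dist q (-1, 0) < d := lt_of_lt_of_le hdist (min_le_left _ _)
  have hd2 : dist q (-1, 0) < 1 / K ^ 2 := lt_of_lt_of_le hdist (min_le_right _ _)
  rw [Prod.dist_eq, max_lt_iff, Real.dist_eq, Real.dist_eq] at hd1 hd2
  simp only [sub_neg_eq_add, sub_zero] at hd1 hd2
  rcases h1 q hq hd1.1 hd1.2 with h | ⟨h2, h3⟩
  · exact absurd h hne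
  obtain ⟨x, hx⟩ : ∃ x : ℝ, x = Real.sqrt (-q.2) := ⟨_, rfl⟩
  have hx0 : 0 < x := by rw [hx]; exact Real.sqrt_pos.mpr (by linarith)
  have hx2 : x ^ 2 = -q.2 := by rw [hx]; exact Real.sq_sqrt (by linarith)
  rw [← hx] at h3
  have ht : 0 < 2 * a / x := by positivity
  have e1 : (1 + q.1) ^ 2 ≤ Real.exp (-(2 * a / x)) := by
    have h4 : (1 + q.1) ^ 2 = |q.1 + 1| ^ 2 := by rw [sq_abs]; ring
    have h5 : Real.exp (-(2 * a / x)) = Real.exp (-(a / x)) ^ 2 := by
      rw [← Real.exp_nat_mul]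
      congr 1
      push_cast
      ring
    rw [h4, h5]
    exact pow_le_pow_left₀ (abs_nonneg _) h3 2
  have e2 : Real.exp (-(2 * a / x)) ≤ 6 / (8 * a ^ 3) * x ^ 3 := by
    have h4 := Real.pow_div_factorial_le_exp (2 * a / x) ht.le 3
    have h5 : (2 * a / x) ^ 3 / (Nat.factorial 3 : ℝ) = 8 * a ^ 3 / (6 * x ^ 3) := by
      have : (Nat.factorial 3 : ℝ) = 6 := by norm_num [Nat.factorial]
      rw [this]
      field_simp
      ring
    rw [h5] at h4
    rw [Real.exp_neg]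
    have h6 : 0 < 8 * a ^ 3 / (6 * x ^ 3) := by positivity
    have h7 : (Real.exp (2 * a / x))⁻¹ ≤ (8 * a ^ 3 / (6 * x ^ 3))⁻¹ := inv_anti₀ h6 h4
    refine h7.trans (le_of_eq ?_)
    field_simp
  have e3 : τ * (1 + q.1) ^ 2 ≤ |τ| * (6 / (8 * a ^ 3) * x ^ 3) := by
    calc τ * (1 + q.1) ^ 2 ≤ |τ| * (1 + q.1) ^ 2 :=
          mul_le_mul_of_nonneg_right (le_abs_self τ) (sq_nonneg _)
      _ ≤ |τ| * (6 / (8 * a ^ 3) * x ^ 3) :=
          mul_le_mul_of_nonneg_left (e1.trans e2) (abs_nonneg _)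
  have e4 : K * x < 1 := by
    have h4 : x ^ 2 < 1 / K ^ 2 := by
      rw [hx2]
      exact lt_of_le_of_lt (neg_le_abs _) hd2.2
    have h5 : (K * x) ^ 2 < 1 := by
      rw [mul_pow]
      have := mul_lt_mul_of_pos_left h4 (show 0 < K ^ 2 by positivity)
      rwa [mul_one_div_cancel (by positivity)] at this
    by_contra h
    push Not at h
    nlinarith
  have e5 : |τ| * (6 / (8 * a ^ 3) * x ^ 3) < x ^ 2 := by
    have h4 : |τ| * (6 / (8 * a ^ 3) * x ^ 3) = (K - 1) * x * x ^ 2 := by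
      rw [hK]
      ring
    rw [h4]
    have h5 : (K - 1) * x < 1 := by linarith
    have h6 : 0 < x ^ 2 := by positivity
    nlinarith
  linarith

end Pool.Agent.Helper1.GB
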